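import Pool.Agent.TH956.PET

/-!
# Uniform recurrence for polynomials in several variables along increasing blocks (helper898)

From the uniform one variable theorem `Pool.Agent.TH956.ipvdw` over the ring of generic
coefficients; the number of blocks and of focus points does not depend on the dimension or on
the coefficients.
-/

set_option autoImplicit false

namespace Pool.Agent.Y898.PR

open Finset

/-- one variable -/
theorem one (K N D : ℕ) : ∃ r M : ℕ, ∀ (e : ℕ) (ι : Type) [Finite ι], Nat.card ι ≤ N →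
    ∀ (c : ι → Fin D → (Fin e → ℝ)) (y : ℕ → ℤ), ∃ V : Finset (Fin e → ℝ), V.card ≤ M ∧
      ∀ (κ : Type) [Finite κ], Nat.card κ ≤ K → ∀ Ψ : (Fin e → ℝ) → κ, ∃ z ∈ V,
        ∃ α : Finset ℕ, α.Nonempty ∧ α ⊆ range r ∧
          ∀ j, Ψ (z + ∑ i : Fin D, (((∑ l ∈ α, y l : ℤ) : ℝ) ^ ((i : ℕ) + 1)) • c j i) = Ψ z := by
  classical
  obtain ⟨r, M, h⟩ := Pool.Agent.TH956.ipvdw (A := MvPolynomial (Fin N × Fin D) ℤ) K N D
  refine ⟨r, M, fun e ι _ hι c y => ?_⟩
  obtain ⟨f, hf⟩ : ∃ f : ι → Fin N, Function.Injective f := by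
    have := Fintype.ofFinite ι
    rw [Nat.card_eq_fintype_card] at hι
    obtain ⟨f⟩ : Nonempty (ι ↪ Fin N) :=
      Function.Embedding.nonempty_of_card_le (by simpa using hι)
    exact ⟨f, f.injective⟩
  obtain ⟨G, hG⟩ : ∃ G : Fin N → Polynomial (MvPolynomial (Fin N × Fin D) ℤ), G = fun j =>
      ∑ i : Fin D, Polynomial.C (MvPolynomial.X (j, i)) * Polynomial.X ^ ((i : ℕ) + 1) := ⟨_, rfl⟩
  have hev : ∀ j x, (G j).eval x = ∑ i : Fin D, MvPolynomial.X (j, i) * x ^ ((i : ℕ) + 1) := by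
    intro j x
    rw [hG]
    simp [Polynomial.eval_finsetSum]
  obtain ⟨V, hV, hV'⟩ := h (univ.image G) (card_image_le.trans (by simp)) (by
      intro p hp
      obtain ⟨j, -, rfl⟩ := mem_image.1 hp
      rw [hev]
      refine sum_eq_zero fun i _ => ?_
      rw [zero_pow (Nat.succ_ne_zero _), mul_zero]) (by
      intro p hp
      obtain ⟨j, -, rfl⟩ := mem_image.1 hp
      rw [hG]
      refine Polynomial.natDegree_sum_le_of_forall_le _ _ fun i _ => ?_
      refine (Polynomial.natDegree_C_mul_X_pow_le _ _).trans ?_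
      exact i.2) (fun n => MvPolynomial.C (y n))
  obtain ⟨φ, hφ⟩ : ∃ φ : MvPolynomial (Fin N × Fin D) ℤ →ₐ[ℤ] (Fin e → ℝ),
      φ = MvPolynomial.aeval (fun q => Function.extend f c 0 q.1 q.2) := ⟨_, rfl⟩
  refine ⟨V.image φ, card_image_le.trans hV, fun κ _ hκ Ψ => ?_⟩
  obtain ⟨z, hz, α, hα, hαr, hp⟩ := hV' κ hκ (fun a => Ψ (φ a))
  refine ⟨φ z, mem_image_of_mem _ hz, α, hα, hαr, fun j => ?_⟩
  have h1 := hp (G (f j)) (mem_image_of_mem _ (mem_univ _))
  simp only [hev, map_add, map_sum, map_mul, map_pow] at h1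
  rw [← h1]
  congr 2
  refine sum_congr rfl fun i _ => ?_
  funext s
  have h2 : φ (MvPolynomial.X (f j, i)) = c j i := by
    rw [hφ, MvPolynomial.aeval_X]
    simp only
    rw [hf.extend_apply]
  have h3 : ∀ l, φ (MvPolynomial.C (y l)) = fun _ => (y l : ℝ) := by
    intro l
    rw [hφ, MvPolynomial.aeval_C]
    funext t
    simp
  rw [h2, Pi.smul_apply, Pi.mul_apply, Pi.pow_apply, Finset.sum_apply, smul_eq_mul, mul_comm]
  congr 2
  push_cast
  exact sum_congr rfl fun l _ => (congrFun (h3 l) s).symm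

/-- the polynomial map with coefficients `c` -/
noncomputable def ev {k D e : ℕ} (c : (Fin k → Fin (D + 1)) → (Fin e → ℝ)) (x : Fin k → ℝ) :
    Fin e → ℝ := ∑ m, (∏ i, x i ^ (m i : ℕ)) • c m

theorem sum_cons {k D : ℕ} {E : Type} [AddCommMonoid E] (F : (Fin (k + 1) → Fin (D + 1)) → E) :
    ∑ m, F m = ∑ m' : Fin k → Fin (D + 1), ∑ m0 : Fin (D + 1), F (Fin.cons m0 m') := by
  rw [← (Fin.consEquiv (fun _ : Fin (k + 1) => Fin (D + 1))).sum_comp, Fintype.sum_prod_type,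
    sum_comm]
  rfl

theorem ev_cons {k D e : ℕ} (c : (Fin (k + 1) → Fin (D + 1)) → (Fin e → ℝ)) (hc : c 0 = 0)
    (x0 : ℝ) (x : Fin k → ℝ) :
    ev c (Fin.cons x0 x) = (∑ i : Fin D, (x0 ^ ((i : ℕ) + 1)) • c (Fin.cons i.succ 0)) +
      ev (fun m' => if m' = 0 then 0 else ∑ m0 : Fin (D + 1), (x0 ^ (m0 : ℕ)) • c (Fin.cons m0 m'))
        x := by
  classical
  unfold ev
  rw [sum_cons]
  have h1 : ∀ m' : Fin k → Fin (D + 1), ∑ m0 : Fin (D + 1),
      (∏ i, (Fin.cons x0 x : Fin (k + 1) → ℝ) i ^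
        (((Fin.cons m0 m' : Fin (k + 1) → Fin (D + 1)) i : Fin (D + 1)) : ℕ)) • c (Fin.cons m0 m') =
      (∏ i, x i ^ (m' i : ℕ)) • ∑ m0 : Fin (D + 1), (x0 ^ (m0 : ℕ)) • c (Fin.cons m0 m') := by
    intro m'
    rw [smul_sum]
    refine sum_congr rfl fun m0 _ => ?_
    rw [Fin.prod_univ_succ, smul_smul]
    simp only [Fin.cons_zero, Fin.cons_succ]
    rw [mul_comm]
  simp only [h1]
  rw [← add_sum_erase univ _ (mem_univ (0 : Fin k → Fin (D + 1))),
    ← add_sum_erase univ (fun m' : Fin k → Fin (D + 1) => (∏ i, x i ^ (m' i : ℕ)) •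
      (if m' = 0 then (0 : Fin e → ℝ) else ∑ m0 : Fin (D + 1), (x0 ^ (m0 : ℕ)) • c (Fin.cons m0 m')))
      (mem_univ (0 : Fin k → Fin (D + 1)))]
  simp only [if_true, smul_zero, zero_add]
  congr 1
  · simp only [Pi.zero_apply, Fin.val_zero, pow_zero, prod_const_one, one_smul]
    rw [Fin.sum_univ_succ]
    simp only [Fin.val_zero, pow_zero, one_smul, Fin.val_succ]
    have h2 : (Fin.cons (0 : Fin (D + 1)) (0 : Fin k → Fin (D + 1)) : Fin (k + 1) → Fin (D + 1)) = 0 := by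
      funext i
      refine Fin.cases ?_ (fun i => ?_) i
      · simp
      · simp
    rw [h2, hc, zero_add]
  · refine sum_congr rfl fun m' hm' => ?_
    rw [if_neg (ne_of_mem_erase hm')]

/-- increasing tuples of nonempty subsets of `{0, …, r - 1}` -/
def Inc {k : ℕ} (r : ℕ) (I : Fin k → Finset ℕ) : Prop :=
  (∀ l, (I l).Nonempty ∧ I l ⊆ range r) ∧ ∀ l l', l < l' → ∀ x ∈ I l, ∀ y ∈ I l', x < y

theorem multi (D : ℕ) : ∀ k K N : ℕ, ∃ r M : ℕ, ∀ (e : ℕ) (ι : Type) [Finite ι], Nat.card ι ≤ N →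
    ∀ c : ι → (Fin k → Fin (D + 1)) → (Fin e → ℝ), (∀ j, c j 0 = 0) → ∀ y : ℕ → ℤ,
    ∃ V : Finset (Fin e → ℝ), V.card ≤ M ∧ ∀ (κ : Type) [Finite κ], Nat.card κ ≤ K →
      ∀ Ψ : (Fin e → ℝ) → κ, ∃ z ∈ V, ∃ α : Fin k → Finset ℕ, Inc r α ∧
        ∀ j, Ψ (z + ev (c j) (fun l => ((∑ i ∈ α l, y i : ℤ) : ℝ))) = Ψ z := by
  classical
  intro k
  induction k with
  | zero =>
    intro K N
    refine ⟨0, 1, fun e ι _ _ c hc y => ⟨{0}, by simp, fun κ _ _ Ψ => ⟨0, by simp, fun _ => ∅,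
      ⟨fun l => l.elim0, fun l => l.elim0⟩, fun j => ?_⟩⟩⟩
    have h1 : ev (c j) (fun l : Fin 0 => ((∑ i ∈ (∅ : Finset ℕ), y i : ℤ) : ℝ)) = 0 := by
      unfold ev
      refine sum_eq_zero fun m _ => ?_
      rw [Subsingleton.elim m 0, hc, smul_zero]
    rw [h1, add_zero]
  | succ k ih =>
    intro K N
    obtain ⟨r₁, M₁, hA⟩ := one K N D
    obtain ⟨r₂, M₂, hB⟩ := ih (K ^ (M₁ * (N * 2 ^ r₁))) (N * 2 ^ r₁)
    refine ⟨r₁ + r₂, M₁ * M₂, fun e ι _ hι c hc y => ?_⟩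
    obtain ⟨V₁, hV₁, hV₁'⟩ := hA e ι hι (fun j i => c j (Fin.cons i.succ 0)) y
    obtain ⟨S, hS⟩ : ∃ S : Finset ℕ → ℝ, S = fun a => ((∑ l ∈ a, y l : ℤ) : ℝ) := ⟨_, rfl⟩
    obtain ⟨p, hp⟩ : ∃ p : ι → Finset ℕ → (Fin e → ℝ), p = fun j a =>
      ∑ i : Fin D, (S a ^ ((i : ℕ) + 1)) • c j (Fin.cons i.succ 0) := ⟨_, rfl⟩
    have hpow : Finite ((range r₁).powerset : Finset (Finset ℕ)) := inferInstance
    have hι' : Nat.card (ι × ((range r₁).powerset : Finset (Finset ℕ))) ≤ N * 2 ^ r₁ := by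
      rw [Nat.card_prod]
      refine Nat.mul_le_mul hι (le_of_eq ?_)
      rw [Nat.card_eq_fintype_card, Fintype.card_coe, card_powerset, card_range]
    obtain ⟨V₂, hV₂, hV₂'⟩ := hB e (ι × ((range r₁).powerset : Finset (Finset ℕ))) hι'
      (fun q m' => if m' = 0 then 0 else ∑ m0 : Fin (D + 1),
        (S q.2.1 ^ (m0 : ℕ)) • c q.1 (Fin.cons m0 m')) (fun q => if_pos rfl) (fun i => y (r₁ + i))
    refine ⟨image₂ (· + ·) V₂ V₁, (card_image₂_le _ _ _).trans ?_, fun κ _ hκ Ψ => ?_⟩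
    · rw [mul_comm]
      exact Nat.mul_le_mul hV₁ hV₂
    have hK : 1 ≤ K := by
      refine le_trans ?_ hκ
      have : Nonempty κ := ⟨Ψ 0⟩
      exact Nat.card_pos
    have hκ' : Nat.card (V₁ × (ι × ((range r₁).powerset : Finset (Finset ℕ))) → κ) ≤
        K ^ (M₁ * (N * 2 ^ r₁)) := by
      rw [Nat.card_fun, Nat.card_prod]
      refine (Nat.pow_le_pow_left hκ _).trans (Nat.pow_le_pow_right hK ?_)
      refine Nat.mul_le_mul ?_ hι'
      rw [Nat.card_eq_fintype_card, Fintype.card_coe]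
      exact hV₁
    obtain ⟨z₂, hz₂, α', hα', h₂⟩ := hV₂' _ hκ'
      (fun b q => Ψ (b + (q.1.1 + p q.2.1 q.2.2.1)))
    obtain ⟨z₁, hz₁, α₀, hα₀, hα₀r, h₁⟩ := hV₁' κ hκ (fun v => Ψ (z₂ + v))
    have hα₀m : α₀ ∈ (range r₁).powerset := mem_powerset.2 hα₀r
    refine ⟨z₂ + z₁, mem_image₂_of_mem hz₂ hz₁,
      Fin.cons α₀ (fun l => (α' l).image (fun i => r₁ + i)), ⟨fun l => ?_, ?_⟩, fun j => ?_⟩
    · refine Fin.cases ?_ (fun l => ?_) l
      · simp only [Fin.cons_zero]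
        exact ⟨hα₀, hα₀r.trans (range_subset_range.2 (Nat.le_add_right _ _))⟩
      · simp only [Fin.cons_succ]
        refine ⟨(hα'.1 l).1.image _, fun x hx => ?_⟩
        obtain ⟨i, hi, rfl⟩ := mem_image.1 hx
        have := mem_range.1 ((hα'.1 l).2 hi)
        exact mem_range.2 (by omega)
    · intro l
      refine Fin.cases ?_ (fun l => ?_) l
      · intro l'
        refine Fin.cases (fun h => absurd h (lt_irrefl _)) (fun l' _ => ?_) l'
        simp only [Fin.cons_zero, Fin.cons_succ]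
        intro x hx z hz
        obtain ⟨i, hi, rfl⟩ := mem_image.1 hz
        have := mem_range.1 (hα₀r hx)
        omega
      · intro l'
        refine Fin.cases (fun h => absurd h (Fin.not_lt_zero _)) (fun l' hll => ?_) l'
        simp only [Fin.cons_succ]
        intro x hx z hz
        obtain ⟨i, hi, rfl⟩ := mem_image.1 hx
        obtain ⟨i', hi', rfl⟩ := mem_image.1 hz
        have := hα'.2 l l' (Fin.succ_lt_succ_iff.1 hll) i hi i' hi'
        omega
    · -- the computation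
      have hx : (fun l : Fin (k + 1) => ((∑ i ∈ (Fin.cons α₀ (fun l => (α' l).image (fun i => r₁ + i)) :
          Fin (k + 1) → Finset ℕ) l, y i : ℤ) : ℝ)) =
          Fin.cons (S α₀) (fun l => ((∑ i ∈ α' l, y (r₁ + i) : ℤ) : ℝ)) := by
        funext l
        refine Fin.cases ?_ (fun l => ?_) l
        · rw [hS]
          simp only [Fin.cons_zero]
        · simp only [Fin.cons_succ]
          rw [sum_image (fun a _ b _ h => by
            have h' : r₁ + a = r₁ + b := h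
            omega)]
      rw [hx, ev_cons (c j) (hc j)]
      have h3 := congrFun (h₂ (j, ⟨α₀, hα₀m⟩)) (⟨z₁, hz₁⟩, (j, ⟨α₀, hα₀m⟩))
      have h4 := h₁ j
      have h5 : p j α₀ = ∑ i : Fin D, (((∑ l ∈ α₀, y l : ℤ) : ℝ) ^ ((i : ℕ) + 1)) •
          c j (Fin.cons i.succ 0) := by
        rw [hp, hS]
      rw [← h5] at h4
      rw [h4] at h3
      rw [← h3]
      congr 1
      rw [hp]
      abel

end Pool.Agent.Y898.PR
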