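import Pool.Agent.TH709.RGap.Dens
import Pool.Agent.Y898.PR

/-!
# Return times of positive density for colourings of lattices (helper898)
-/

set_option autoImplicit false

namespace Pool.Agent.Y898.Den

open Finset
open Pool.Agent.TH709.RGap (Dense box mem_box card_box pow_box)
open Pool.Agent.Y898.PR

/-- if every point has a neighbour in one of `T` sets, then one of the sets is dense -/
theorem dense_of_cover {e : ℕ} (F : Finset (Fin e → ℤ)) (M : ℕ) (hM : 0 < M) (hF : F.card ≤ M)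
    (τ : Type) [Fintype τ] (T : ℕ) (hT : Fintype.card τ ≤ T) (R : τ → Set (Fin e → ℤ))
    (h : ∀ b : Fin e → ℤ, ∃ v ∈ F, ∃ t, b + v ∈ R t) :
    ∃ t, Dense (R t) (1 / (2 * M * T)) := by
  classical
  choose v hv tt ht using h
  have hT0 : 0 < T := lt_of_lt_of_le (Fintype.card_pos_iff.2 ⟨tt 0⟩) hT
  have hT0' : (0 : ℝ) < T := by exact_mod_cast hT0
  have hM0' : (0 : ℝ) < M := by exact_mod_cast hM
  obtain ⟨W, hW⟩ : ∃ W : ℕ, ∀ u ∈ F, ∀ i, |u i| ≤ W := by
    refine ⟨∑ u ∈ F, ∑ j, (u j).natAbs, fun u hu j => ?_⟩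
    rw [Int.abs_eq_natAbs]
    have h1 : (u j).natAbs ≤ ∑ j, (u j).natAbs :=
      single_le_sum (f := fun j => (u j).natAbs) (fun _ _ => Nat.zero_le _) (mem_univ j)
    have h2 : ∑ j, (u j).natAbs ≤ ∑ u ∈ F, ∑ j, (u j).natAbs :=
      single_le_sum (f := fun u : Fin e → ℤ => ∑ j, (u j).natAbs) (fun _ _ => Nat.zero_le _) hu
    exact_mod_cast h1.trans h2
  have hone : ∀ L : ℕ, ∃ t : τ, ∃ N : ℕ, L ≤ N ∧ ∃ x : Fin e → ℤ,
      1 / (2 * M * T) * (N : ℝ) ^ e ≤
        (Set.ncard {a | a ∈ R t ∧ ∀ i, x i ≤ a i ∧ a i < x i + N} : ℝ) := by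
    intro L
    obtain ⟨N, hN⟩ : ∃ N : ℕ, N = 4 * W * e + 1 + L := ⟨_, rfl⟩
    have hN0 : 0 < N := by omega
    have hNe : (0 : ℝ) < (N : ℝ) ^ e := by
      have : (0 : ℝ) < N := by exact_mod_cast hN0
      positivity
    have hpow : ((N + 2 * W : ℕ) : ℝ) ^ e ≤ 2 * (N : ℝ) ^ e := pow_box W N e (by omega) hN0
    have hex : ∃ t : τ, 1 / T * (N : ℝ) ^ e ≤ (((box 0 N).filter (fun b => tt b = t)).card : ℝ) := by
      by_contra hcon
      push Not at hcon
      have h1 : ((box (0 : Fin e → ℤ) N).card : ℝ) = ∑ t : τ,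
          (((box (0 : Fin e → ℤ) N).filter (fun b => tt b = t)).card : ℝ) := by
        rw [card_eq_sum_card_fiberwise (f := tt) (t := univ) (fun _ _ => mem_coe.2 (mem_univ _))]
        push_cast
        rfl
      have hne : (univ : Finset τ).Nonempty := ⟨tt 0, mem_univ _⟩
      have h2 : ∑ t : τ, (((box (0 : Fin e → ℤ) N).filter (fun b => tt b = t)).card : ℝ) <
          ∑ _t : τ, 1 / T * (N : ℝ) ^ e := sum_lt_sum_of_nonempty hne fun t _ => hcon t
      rw [← h1, sum_const, card_univ, nsmul_eq_mul, card_box, Nat.cast_pow] at h2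
      have h3 : (Fintype.card τ : ℝ) * (1 / T * (N : ℝ) ^ e) ≤ (N : ℝ) ^ e := by
        rw [← mul_assoc]
        refine mul_le_of_le_one_left hNe.le ?_
        rw [mul_one_div, div_le_one hT0']
        exact_mod_cast hT
      linarith
    obtain ⟨t, htc⟩ := hex
    refine ⟨t, N + 2 * W, by omega, fun _ => -W, ?_⟩
    obtain ⟨Z, hZ⟩ : ∃ Z : Finset (Fin e → ℤ),
        Z = ((box 0 N).filter (fun b => tt b = t)).image (fun b => b + v b) := ⟨_, rfl⟩
    have h1 : ((box 0 N).filter (fun b => tt b = t)).card ≤ M * Z.card := by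
      rw [hZ]
      apply card_le_mul_card_image
      intro a _
      refine le_trans ?_ hF
      refine le_trans (card_le_card ?_) (card_image_le (s := F) (f := fun u => a - u))
      intro b hb
      have hb2 := (mem_filter.1 hb).2
      exact mem_image.2 ⟨v b, hv b, by rw [← hb2]; abel⟩
    have hfin : {a : Fin e → ℤ | a ∈ R t ∧ ∀ i, -(W : ℤ) ≤ a i ∧
        a i < -(W : ℤ) + ((N + 2 * W : ℕ) : ℤ)}.Finite := by
      refine (finite_toSet (box (fun _ => -(W : ℤ)) (N + 2 * W))).subset ?_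
      rintro a ⟨-, ha⟩
      rw [mem_coe, mem_box]
      exact ha
    have h2 : Z.card ≤ Set.ncard {a : Fin e → ℤ | a ∈ R t ∧ ∀ i, -(W : ℤ) ≤ a i ∧
        a i < -(W : ℤ) + ((N + 2 * W : ℕ) : ℤ)} := by
      rw [← Set.ncard_coe_finset]
      refine Set.ncard_le_ncard ?_ hfin
      intro a ha
      rw [mem_coe, hZ] at ha
      obtain ⟨b, hb, rfl⟩ := mem_image.1 ha
      obtain ⟨hb1, hb2⟩ := mem_filter.1 hb
      refine ⟨?_, fun i => ?_⟩
      · have h3 := ht b
        rw [hb2] at h3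
        exact h3
      · have h3 := (mem_box _ _ _).1 hb1 i
        have h4 := abs_le.1 (hW _ (hv b) i)
        simp only [Pi.add_apply, Pi.zero_apply] at h3 ⊢
        push_cast
        constructor <;> linarith [h3.1, h3.2, h4.1, h4.2]
    have h3 : (((box 0 N).filter (fun b => tt b = t)).card : ℝ) ≤ M * Z.card := by
      exact_mod_cast h1
    have h4 : (Z.card : ℝ) ≤ (Set.ncard {a : Fin e → ℤ | a ∈ R t ∧ ∀ i, -(W : ℤ) ≤ a i ∧
        a i < -(W : ℤ) + ((N + 2 * W : ℕ) : ℤ)} : ℝ) := by exact_mod_cast h2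
    calc 1 / (2 * M * T) * ((N + 2 * W : ℕ) : ℝ) ^ e ≤ 1 / (2 * M * T) * (2 * (N : ℝ) ^ e) :=
          mul_le_mul_of_nonneg_left hpow (by positivity)
      _ = 1 / M * (1 / T * (N : ℝ) ^ e) := by
          field_simp
      _ ≤ 1 / M * (M * Z.card) := mul_le_mul_of_nonneg_left (htc.trans h3) (by positivity)
      _ = Z.card := by
          field_simp
      _ ≤ _ := h4
  by_contra hcon
  push Not at hcon
  unfold Pool.Agent.TH709.RGap.Dense at hcon
  push Not at hcon
  choose Lv hLv using hcon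
  obtain ⟨t, N, hN, x, hx⟩ := hone (∑ t, Lv t)
  have h1 : Lv t ≤ ∑ t, Lv t := single_le_sum (f := Lv) (fun _ _ => Nat.zero_le _) (mem_univ t)
  exact absurd hx (not_le.2 (hLv t N (h1.trans hN) x))

theorem round_eq' (w : ℝ) (u : ℤ) (h : |w - u| < 1 / 2) : round w = u := by
  rw [round_eq, Int.floor_eq_iff]
  have h1 := abs_lt.1 h
  constructor <;> linarith [h1.1, h1.2]

/-- the cell of a fractional part -/
noncomputable def cell (m : ℕ) (x : ℝ) : ℕ := ⌊Int.fract x * m⌋₊

theorem cell_lt (m : ℕ) (hm : 0 < m) (x : ℝ) : cell m x < m := by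
  unfold cell
  have hm' : (0 : ℝ) < m := by exact_mod_cast hm
  rw [Nat.floor_lt (by positivity)]
  have := Int.fract_lt_one x
  nlinarith

theorem cell_close (m : ℕ) (hm : 0 < m) (x y : ℝ) (h : cell m x = cell m y) :
    |Int.fract x - Int.fract y| < 1 / m := by
  unfold cell at h
  have hm' : (0 : ℝ) < m := by exact_mod_cast hm
  have h1 := Nat.floor_le (a := Int.fract x * m) (by positivity)
  have h2 := Nat.lt_floor_add_one (Int.fract x * m)
  have h3 := Nat.floor_le (a := Int.fract y * m) (by positivity)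
  have h4 := Nat.lt_floor_add_one (Int.fract y * m)
  rw [h] at h1 h2
  rw [abs_lt, neg_lt, ← sub_pos, ← sub_pos]
  have h5 : (Int.fract x - Int.fract y) * m < 1 := by
    rw [sub_mul]
    linarith
  have h6 : -1 < (Int.fract x - Int.fract y) * m := by
    rw [sub_mul]
    linarith
  have h7 : (1 / (m : ℝ)) * m = 1 := by
    field_simp
  constructor
  · by_contra hcon
    push Not at hcon
    nlinarith
  · by_contra hcon
    push Not at hcon
    nlinarith

theorem shift_cell (m : ℕ) (hm : 2 ≤ m) (v w : ℝ) (h : cell m (v + w) = cell m v) :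
    round w = ⌊v + w⌋ - ⌊v⌋ ∧ |w - round w| < 1 / m := by
  have h1 := cell_close m (by omega) _ _ h
  have h2 : w - ((⌊v + w⌋ - ⌊v⌋ : ℤ) : ℝ) = Int.fract (v + w) - Int.fract v := by
    rw [Int.fract, Int.fract]
    push_cast
    ring
  have h3 : (1 : ℝ) / m ≤ 1 / 2 := by
    apply one_div_le_one_div_of_le (by norm_num)
    exact_mod_cast hm
  rw [← h2] at h1
  have h4 := round_eq' w _ (h1.trans_le h3)
  refine ⟨h4, ?_⟩
  rw [h4]
  exact h1

/-- the polynomials are close to integers and the colour returns with positive density -/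
theorem returns (k K N D s : ℕ) (ε : ℝ) (hε : 0 < ε) : ∃ (r : ℕ) (η : ℝ), 0 < η ∧
    ∀ (e : ℕ) (c : Fin N → (Fin k → Fin (D + 1)) → (Fin e → ℝ)), (∀ j, c j 0 = 0) →
    ∀ S : Finset (Fin e), S.card ≤ s →
    (∀ i, i ∉ S → ∀ j, ∀ v : Fin k → ℤ, ∃ u : ℤ, ev (c j) (fun l => (v l : ℝ)) i = u) →
    ∀ (Ψ : (Fin e → ℤ) → Fin K) (y : ℕ → ℤ), ∃ α : Fin k → Finset ℕ, Inc r α ∧
      (∀ j i, |ev (c j) (fun l => ((∑ n ∈ α l, y n : ℤ) : ℝ)) i -
        round (ev (c j) (fun l => ((∑ n ∈ α l, y n : ℤ) : ℝ)) i)| < ε) ∧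
      Dense {a : Fin e → ℤ | ∀ j, Ψ (fun i => a i +
        round (ev (c j) (fun l => ((∑ n ∈ α l, y n : ℤ) : ℝ)) i)) = Ψ a} η := by
  classical
  obtain ⟨m, hm⟩ : ∃ m : ℕ, m = ⌈1 / ε⌉₊ + 2 := ⟨_, rfl⟩
  have hm2 : 2 ≤ m := by omega
  have hmε : 1 / (m : ℝ) < ε := by
    have h1 := Nat.le_ceil (1 / ε)
    have hm' : (0 : ℝ) < m := by
      have : 0 < m := by omega
      exact_mod_cast this
    rw [div_lt_iff₀ hm']
    have h2 : 1 / ε < m := by
      rw [hm]
      push_cast
      linarith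
    rw [div_lt_iff₀ hε] at h2
    linarith
  obtain ⟨r, M, hrM⟩ := multi D k (K * m ^ s) N
  obtain ⟨T, hT⟩ : ∃ T : ℕ, T = Fintype.card (Fin k → ((range r).powerset : Finset (Finset ℕ))) :=
    ⟨_, rfl⟩
  have hT0 : 0 < T := by
    rw [hT]
    have : Nonempty (Fin k → ((range r).powerset : Finset (Finset ℕ))) :=
      ⟨fun _ => ⟨∅, by simp⟩⟩
    exact Fintype.card_pos
  refine ⟨r, 1 / (2 * (M + 1 : ℕ) * T), by positivity, fun e c hc S hS hint Ψ y => ?_⟩
  obtain ⟨V, hV, hV'⟩ := hrM e (Fin N) (by simp) c hc y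
  -- the bad index sets get an empty set of points
  obtain ⟨w, hw⟩ : ∃ w : (Fin k → Finset ℕ) → Fin N → Fin e → ℝ, w = fun α j =>
      ev (c j) (fun l => ((∑ n ∈ α l, y n : ℤ) : ℝ)) := ⟨_, rfl⟩
  obtain ⟨R, hR⟩ : ∃ R : (Fin k → ((range r).powerset : Finset (Finset ℕ))) → Set (Fin e → ℤ),
      R = fun α => {a | Inc r (fun l => (α l).1) ∧ (∀ j i, |w (fun l => (α l).1) j i -
        round (w (fun l => (α l).1) j i)| < ε) ∧
        ∀ j, Ψ (fun i => a i + round (w (fun l => (α l).1) j i)) = Ψ a} := ⟨_, rfl⟩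
  obtain ⟨t, ht⟩ := dense_of_cover (V.image (fun z => fun i => ⌊z i⌋)) (M + 1) (by omega)
    (card_image_le.trans (hV.trans (Nat.le_succ _)))
    (Fin k → ((range r).powerset : Finset (Finset ℕ))) T (le_of_eq hT.symm) R (by
      intro b
      have hκ : Nat.card (Fin K × (S → Fin m)) ≤ K * m ^ s := by
        rw [Nat.card_prod, Nat.card_fun, Nat.card_fin, Nat.card_fin, Nat.card_eq_fintype_card,
          Fintype.card_coe]
        exact Nat.mul_le_mul le_rfl (Nat.pow_le_pow_right (by omega) hS)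
      obtain ⟨z, hz, α, hα, hα'⟩ := hV' (Fin K × (S → Fin m)) hκ
        (fun x => (Ψ (fun i => ⌊(b i : ℝ) + x i⌋),
          fun i : S => ⟨cell m ((b i : ℝ) + x i), cell_lt m (by omega) _⟩))
      refine ⟨fun i => ⌊z i⌋, mem_image_of_mem _ hz, fun l => ⟨α l, mem_powerset.2 (hα.1 l).2⟩, ?_⟩
      have hkey : ∀ j i, |w α j i - round (w α j i)| < ε ∧
          ⌊(b i : ℝ) + (z i + w α j i)⌋ = b i + ⌊z i⌋ + round (w α j i) := by
        intro j i
        have h1 := hα' j
        rw [Prod.mk.injEq] at h1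
        by_cases hi : i ∈ S
        · have h2 := congrArg Fin.val (congrFun h1.2 ⟨i, hi⟩)
          simp only [Pi.add_apply] at h2
          have h3 : cell m ((b i : ℝ) + z i + w α j i) = cell m ((b i : ℝ) + z i) := by
            rw [hw]
            simp only
            rw [add_assoc]
            exact h2
          obtain ⟨h4, h5⟩ := shift_cell m hm2 _ _ h3
          refine ⟨h5.trans hmε, ?_⟩
          rw [h4, ← add_assoc, Int.floor_intCast_add (b i) (z i)]
          ring
        · obtain ⟨u, hu⟩ := hint i hi j (fun l => ∑ n ∈ α l, y n)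
          have h2 : w α j i = u := by
            rw [hw]
            exact hu
          rw [h2, round_intCast, sub_self, abs_zero]
          refine ⟨hε, ?_⟩
          rw [← add_assoc, Int.floor_add_intCast, Int.floor_intCast_add]
      rw [hR]
      refine ⟨hα, fun j i => (hkey j i).1, fun j => ?_⟩
      have h1 := hα' j
      rw [Prod.mk.injEq] at h1
      have h2 : (fun i => ⌊(b i : ℝ) + z i⌋) = b + fun i => ⌊z i⌋ := by
        funext i
        simp only [Pi.add_apply]
        rw [Int.floor_intCast_add]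
      have h3 : (fun i => ⌊(b i : ℝ) + (z + ev (c j) (fun l => ((∑ n ∈ α l, y n : ℤ) : ℝ))) i⌋) =
          fun i => (b + fun i => ⌊z i⌋) i + round (w α j i) := by
        funext i
        simp only [Pi.add_apply]
        rw [← (hkey j i).2, hw]
      have h4 := h1.1
      rw [h2, h3] at h4
      exact h4)
  -- the chosen index
  have hne : (R t).Nonempty := by
    obtain ⟨N', hN', x, hx⟩ := ht 1
    by_contra hcon
    rw [Set.not_nonempty_iff_eq_empty] at hcon
    rw [hcon] at hx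
    simp only [Set.mem_empty_iff_false, false_and, Set.ofPred_false, Set.ncard_empty,
      Nat.cast_zero] at hx
    have hN0 : (0 : ℝ) < N' := by exact_mod_cast hN'
    have : 0 < 1 / (2 * ((M + 1 : ℕ) : ℝ) * T) * (N' : ℝ) ^ e := by positivity
    linarith
  obtain ⟨a, ha⟩ := hne
  rw [hR] at ha ht
  refine ⟨fun l => (t l).1, ha.1, ?_, ?_⟩
  · intro j i
    have h1 := ha.2.1 j i
    rw [hw] at h1
    exact h1
  · intro L
    obtain ⟨N', hN', x, hx⟩ := ht L
    refine ⟨N', hN', x, hx.trans ?_⟩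
    rw [Nat.cast_le]
    refine Set.ncard_le_ncard ?_ ?_
    · rintro z ⟨hz1, hz2⟩
      refine ⟨fun j => ?_, hz2⟩
      have h1 := hz1.2.2 j
      rw [hw] at h1
      exact h1
    · refine (finite_toSet (box x N')).subset ?_
      rintro z ⟨-, hz⟩
      rw [mem_coe, mem_box]
      exact hz

end Pool.Agent.Y898.Den
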