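import Pool.Agent.TH101.RG.Pat
import Pool.Agent.H312R2.RG.C1

set_option autoImplicit false
set_option maxHeartbeats 4000000

/-!
# Clusters of primes with prescribed ratios at every scale after a record gap (helper898)

A variant of `Pool.Agent.TH709.RGap.engine` (helper709): the scale `h` of the cluster is arbitrary,
and the gap before the cluster has record size.
-/

namespace Pool.Agent.Y898.Engine2

open Finset Filter
open Pool.Agent.H256R2.SC (ff)
open Pool.Agent.H312R2.RG

open Classical in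
theorem engine2 (k : ℕ) : ∃ K : ℕ, ∀ C : ℕ, ∃ c : ℝ, 0 < c ∧ ∀ᶠ x : ℝ in atTop,
    ∀ h : ℕ, 1 ≤ h → (h : ℝ) ≤ c * ff x →
    ∀ w : ℕ → ℕ, (∀ i < K, 0 < w i ∧ w i ≤ C) →
    x ^ (7 / 8 : ℝ) ≤ (((Finset.range ⌊x⌋₊).filter (fun n : ℕ => 0 < n ∧
      (Nat.nth Nat.Prime (n + k) : ℝ) ≤ x ∧
      c * ff x ≤ (Nat.nth Nat.Prime n : ℝ) - Nat.nth Nat.Prime (n - 1) ∧
      ∃ a : ℕ → ℕ, (∀ i < k, a i < a (i + 1)) ∧ a k < K ∧ ∀ i < k,
        Nat.nth Nat.Prime (n + i + 1) - Nat.nth Nat.Prime (n + i) =
          K.factorial * h * ∑ j ∈ Ico (a i) (a (i + 1)), w j)).card : ℝ) := by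
  obtain ⟨K, c0, hc0, hcore⟩ := Pool.Agent.TH101.RG.core (k + 1)
  refine ⟨K, fun C => ?_⟩
  obtain ⟨E, hE⟩ : ∃ E : ℕ, E = K * C + 1 := ⟨_, rfl⟩
  have hE1 : (1 : ℝ) ≤ E := by
    rw [hE]
    exact_mod_cast Nat.le_add_left 1 _
  have hE0 : (0 : ℝ) < E := by linarith
  have hKf : 0 < K.factorial := Nat.factorial_pos K
  have hKf0 : (0 : ℝ) < K.factorial := by exact_mod_cast hKf
  refine ⟨c0 / (4 * (K.factorial * E)), by positivity, ?_⟩
  have tX : Tendsto (fun x : ℝ => x / 5) atTop atTop := tendsto_id.atTop_div_const (by norm_num)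
  filter_upwards [tX.eventually hcore, tX.eventually (c1_ff_log (K.factorial * E / c0)),
    tX.eventually (ev_ff c0 hc0), Pool.Agent.H378R2.RGT.ff_half, c1_card,
    tX.eventually (Real.tendsto_log_atTop.eventually_ge_atTop 1), eventually_ge_atTop 10]
    with x e1 e2 e3 e4 e5 e6 e7
  set X : ℝ := x / 5 with hX
  have hx5 : x = 5 * X := by rw [hX]; ring
  obtain ⟨f1, f2, f3⟩ := e3
  set H : ℝ := c0 * ff X with hH
  have hH0 : 0 ≤ H := mul_nonneg hc0.le f2
  have hHbig : (K.factorial : ℝ) * E ≤ H := by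
    have h1 : (K.factorial * E / c0 * Real.log X) * c0 ≤ ff X * c0 :=
      mul_le_mul_of_nonneg_right e2 hc0.le
    have h2 : ((K.factorial : ℝ) * E / c0 * Real.log X) * c0 = K.factorial * E * Real.log X := by
      field_simp
    have h3 : (K.factorial : ℝ) * E * 1 ≤ K.factorial * E * Real.log X :=
      mul_le_mul_of_nonneg_left e6 (by positivity)
    rw [hH, mul_comm c0]
    linarith
  intro h hh1 hhx w hw
  have hhle : (h : ℝ) ≤ H / (K.factorial * E) := by
    have h1 : ff x ≤ 2 * ff X := by linarith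
    have h2 : c0 / (4 * (K.factorial * E)) * ff x ≤ c0 / (4 * (K.factorial * E)) * (2 * ff X) :=
      mul_le_mul_of_nonneg_left h1 (by positivity)
    have h3 : c0 / (4 * (K.factorial * E)) * (2 * ff X) = H / (K.factorial * E) / 2 := by
      rw [hH]
      field_simp
      ring
    have h4 : 0 ≤ H / (K.factorial * E) := by positivity
    linarith
  -- the positions
  obtain ⟨pos, hpos⟩ : ∃ pos : ℕ → ℕ, pos = fun j => ∑ t ∈ range j, w t := ⟨_, rfl⟩
  have hposlt : ∀ i j, i < j → j < K → pos i < pos j := by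
    intro i j hij hj
    rw [hpos]
    simp only
    apply sum_lt_sum_of_subset (i := i)
    · exact range_subset_range.2 hij.le
    · exact mem_range.2 hij
    · simp
    · exact (hw i (by omega)).1
    · intro t _ _
      exact Nat.zero_le _
  have hposle : ∀ j < K, pos j ≤ K * C := by
    intro j hj
    rw [hpos]
    simp only
    calc ∑ t ∈ range j, w t ≤ ∑ t ∈ range j, C := sum_le_sum fun t ht => (hw t (by
          have := mem_range.1 ht
          omega)).2
      _ = j * C := by rw [sum_const, card_range, smul_eq_mul]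
      _ ≤ K * C := Nat.mul_le_mul_right _ hj.le
  have hposinj : Set.InjOn pos (range K) := by
    intro i hi j hj hij
    have hi' := mem_range.1 (mem_coe.1 hi)
    have hj' := mem_range.1 (mem_coe.1 hj)
    rcases lt_trichotomy i j with hlt | heq | hlt
    · have := hposlt i j hlt hj'
      omega
    · exact heq
    · have := hposlt j i hlt hi'
      omega
  set s : Finset ℕ := (range K).image pos with hs
  have hscard : s.card = K := by
    rw [hs, card_image_of_injOn hposinj, card_range]
  have hsle : ∀ l ∈ s, ((K.factorial * h * l : ℕ) : ℝ) ≤ H := by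
    intro l hl
    obtain ⟨j, hj, rfl⟩ := mem_image.1 hl
    have h1 : pos j ≤ E := by
      have := hposle j (mem_range.1 hj)
      omega
    have h2 : (pos j : ℝ) ≤ E := by exact_mod_cast h1
    push_cast
    calc (K.factorial : ℝ) * h * pos j ≤ K.factorial * (H / (K.factorial * E)) * E := by
          apply mul_le_mul _ h2 (by positivity) (by positivity)
          exact mul_le_mul_of_nonneg_left hhle hKf0.le
      _ = H := by field_simp
  by_contra hcon
  push Not at hcon
  set Ch : Finset ℕ := (Finset.range ⌊x⌋₊).filter (fun n : ℕ => 0 < n ∧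
      (Nat.nth Nat.Prime (n + k) : ℝ) ≤ x ∧
      c0 / (4 * (K.factorial * E)) * ff x ≤ (Nat.nth Nat.Prime n : ℝ) - Nat.nth Nat.Prime (n - 1) ∧
      ∃ a : ℕ → ℕ, (∀ i < k, a i < a (i + 1)) ∧ a k < K ∧ ∀ i < k,
        Nat.nth Nat.Prime (n + i + 1) - Nat.nth Nat.Prime (n + i) =
          K.factorial * h * ∑ j ∈ Ico (a i) (a (i + 1)), w j) with hCh
  -- the bad set
  set B : ℕ := ⌊H⌋₊ with hB
  let bad : Finset ℕ := Ch.biUnion (fun n => Finset.Icc (Nat.nth Nat.Prime n - B) (Nat.nth Nat.Prime n))
  have hBle : (B : ℝ) ≤ H := Nat.floor_le hH0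
  have hbad : (bad.card : ℝ) ≤ X ^ (9 / 10 : ℝ) := by
    have h1 : bad.card ≤ ∑ n ∈ Ch, (B + 1) := by
      refine Finset.card_biUnion_le.trans (Finset.sum_le_sum fun n _ => ?_)
      rw [Nat.card_Icc]
      omega
    rw [Finset.sum_const, smul_eq_mul] at h1
    have h2 : (bad.card : ℝ) ≤ (Ch.card : ℝ) * ((B : ℝ) + 1) := by exact_mod_cast h1
    refine h2.trans (le_trans ?_ e5)
    apply mul_le_mul hcon.le _ (by positivity) (by positivity)
    linarith
  obtain ⟨N, hN1, hN2, hNbad, hNr, hNs⟩ := e1 h hh1 s hscard (fun l hl => (hsle l hl).trans f1) bad hbad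
  -- the index
  set n : ℕ := Nat.count Nat.Prime N with hn
  have hcount : n + (k + 1) ≤ Nat.count Nat.Prime (N + (B + 1)) := by
    rw [Nat.count_add, ← hn]
    apply Nat.add_le_add_left
    rw [Nat.count_eq_card_filter_range]
    refine hNr.trans ?_
    refine Finset.card_le_card_of_injOn (fun l => K.factorial * h * l) ?_ (fun i _ j _ hij =>
      Nat.eq_of_mul_eq_mul_left (Nat.mul_pos hKf hh1) hij)
    intro l hl
    rw [Finset.mem_coe, Finset.mem_filter] at hl
    rw [Finset.mem_coe, Finset.mem_filter, Finset.mem_range]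
    refine ⟨?_, hl.2⟩
    have : K.factorial * h * l ≤ B := Nat.le_floor (hsle l hl.1)
    exact Nat.lt_succ_of_le this
  have hprime : ∀ i, (Nat.nth Nat.Prime i).Prime := fun i => Nat.prime_nth_prime i
  have hlo : ∀ i, N ≤ Nat.nth Nat.Prime (n + i) := by
    intro i
    have h1 : Nat.nth Nat.Prime n ≤ Nat.nth Nat.Prime (n + i) :=
      Nat.nth_monotone Nat.infinite_setOfPred_prime (Nat.le_add_right n i)
    refine le_trans ?_ h1
    by_contra hc
    push Not at hc
    have h2 : Nat.count Nat.Prime (Nat.nth Nat.Prime n + 1) ≤ Nat.count Nat.Prime N :=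
      Nat.count_monotone _ hc
    rw [Nat.count_succ, Nat.count_nth_of_infinite Nat.infinite_setOfPred_prime,
      if_pos (hprime n)] at h2
    omega
  have hhi : ∀ i, i ≤ k → Nat.nth Nat.Prime (n + i) ≤ N + B := by
    intro i hi
    have h1 : Nat.nth Nat.Prime (n + i) < N + (B + 1) := Nat.nth_lt_of_lt_count (by omega)
    omega
  have hform : ∀ i, ∃ a : ℕ, i ≤ k → a < K ∧ Nat.nth Nat.Prime (n + i) = N + K.factorial * h * pos a := by
    intro i
    by_cases hi : i ≤ k
    · obtain ⟨u, hu⟩ := Nat.exists_eq_add_of_le (hlo i)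
      have huB : u ≤ B := by
        have := hhi i hi
        omega
      have huH : (u : ℝ) ≤ H := le_trans (by exact_mod_cast huB) hBle
      have hp : (N + u).Prime := hu ▸ hprime (n + i)
      obtain ⟨l, hl, hlu⟩ := hNs (u : ℤ) (by
        rw [Int.cast_natCast, abs_of_nonneg (Nat.cast_nonneg _)]
        exact huH) (by
        have h1 : ((N : ℤ) + u).toNat = N + u := by
          rw [← Nat.cast_add, Int.toNat_natCast]
        rw [h1]
        exact hp)
      obtain ⟨a, ha, rfl⟩ := mem_image.1 hl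
      refine ⟨a, fun _ => ⟨mem_range.1 ha, ?_⟩⟩
      rw [hu]
      have h2 : u = K.factorial * h * pos a := by exact_mod_cast hlu
      rw [h2]
    · exact ⟨0, fun h => absurd h hi⟩
  choose a ha using hform
  have hltn : ∀ i, Nat.nth Nat.Prime (n + i) < Nat.nth Nat.Prime (n + (i + 1)) := fun i =>
    Nat.nth_strictMono Nat.infinite_setOfPred_prime (by omega)
  have hamono : ∀ i < k, a i < a (i + 1) := by
    intro i hi
    have h1 := ha i hi.le
    have h2 := ha (i + 1) hi
    by_contra hc
    push Not at hc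
    have h3 : pos (a (i + 1)) ≤ pos (a i) := by
      rcases hc.eq_or_lt with heq | hlt
      · rw [heq]
      · exact (hposlt _ _ hlt h1.1).le
    have h4 := hltn i
    rw [h1.2, h2.2] at h4
    have h5 : K.factorial * h * pos (a (i + 1)) ≤ K.factorial * h * pos (a i) := Nat.mul_le_mul_left _ h3
    omega
  have hsumpos : ∀ i < k, pos (a i) + ∑ j ∈ Ico (a i) (a (i + 1)), w j = pos (a (i + 1)) := by
    intro i hi
    rw [hpos]
    simp only
    exact sum_range_add_sum_Ico _ (hamono i hi).le
  have hgapeq : ∀ i < k, Nat.nth Nat.Prime (n + (i + 1)) = Nat.nth Nat.Prime (n + i) +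
      K.factorial * h * ∑ j ∈ Ico (a i) (a (i + 1)), w j := by
    intro i hi
    rw [(ha i hi.le).2, (ha (i + 1) hi).2, ← hsumpos i hi, mul_add]
    ring
  -- the gap before the cluster
  have hn0 : 0 < n := by
    rw [hn, Nat.pos_iff_ne_zero]
    intro h0
    have h1 : 3 ≤ N := by
      have h2 : ((2 : ℕ) : ℝ) < N := by
        push_cast
        linarith
      exact_mod_cast h2
    have h3 := Nat.count_monotone Nat.Prime h1
    rw [h0] at h3
    have h4 : Nat.count Nat.Prime 3 = 1 := by decide
    omega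
  have hleft : c0 / (4 * (K.factorial * E)) * ff x ≤
      (Nat.nth Nat.Prime n : ℝ) - Nat.nth Nat.Prime (n - 1) := by
    have h1 : Nat.nth Nat.Prime (n - 1) < N := Nat.nth_lt_of_lt_count (by omega)
    have h2 : ¬ |(((Nat.nth Nat.Prime (n - 1) : ℤ) - N : ℤ) : ℝ)| ≤ c0 * ff X := by
      intro h3
      obtain ⟨l, -, hl⟩ := hNs ((Nat.nth Nat.Prime (n - 1) : ℤ) - N) h3 (by
        have h4 : ((N : ℤ) + ((Nat.nth Nat.Prime (n - 1) : ℤ) - N)).toNat =
            Nat.nth Nat.Prime (n - 1) := by
          rw [add_sub_cancel, Int.toNat_natCast]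
        rw [h4]
        exact hprime _)
      omega
    push_cast at h2
    rw [abs_sub_comm, abs_of_nonneg (by
      rw [sub_nonneg]
      exact_mod_cast h1.le)] at h2
    push Not at h2
    have h5 : (N : ℝ) ≤ Nat.nth Nat.Prime n := by
      have := hlo 0
      rw [add_zero] at this
      exact_mod_cast this
    have h6 : c0 / (4 * (K.factorial * E)) * ff x ≤ c0 * ff X := by
      have h7 : (1 : ℝ) ≤ K.factorial * E := by
        have h8 : (1 : ℝ) ≤ K.factorial := by exact_mod_cast hKf
        nlinarith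
      have h9 : c0 / (4 * (K.factorial * E)) ≤ c0 / 4 := by
        apply div_le_div_of_nonneg_left hc0.le (by norm_num)
        linarith
      have h10 : 0 ≤ ff x := by
        have hh0 : (1 : ℝ) ≤ h := by exact_mod_cast hh1
        by_contra hneg
        push Not at hneg
        have : c0 / (4 * (K.factorial * E)) * ff x ≤ 0 :=
          mul_nonpos_of_nonneg_of_nonpos (by positivity) hneg.le
        linarith
      have h11 : c0 / (4 * (K.factorial * E)) * ff x ≤ c0 / 4 * ff x :=
        mul_le_mul_of_nonneg_right h9 h10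
      nlinarith
    linarith
  have hn_mem : n ∈ Ch := by
    rw [hCh, Finset.mem_filter, Finset.mem_range]
    refine ⟨?_, hn0, ?_, hleft, a, hamono, (ha k le_rfl).1, ?_⟩
    · have h1 : n ≤ N := Nat.count_le _
      have h2 : ((n + 1 : ℕ) : ℝ) ≤ x := by
        push_cast
        have : (n : ℝ) ≤ N := by exact_mod_cast h1
        linarith
      exact Nat.le_floor h2
    · have h1 := hhi k le_rfl
      have h2 : (Nat.nth Nat.Prime (n + k) : ℝ) ≤ N + B := by exact_mod_cast h1
      linarith
    · intro i hi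
      rw [add_assoc n i 1, hgapeq i hi, Nat.add_sub_cancel_left]
  apply hNbad
  simp only [bad, Finset.mem_biUnion]
  refine ⟨n, hn_mem, ?_⟩
  rw [Finset.mem_Icc]
  have h1 := hlo 0
  have h2 := hhi 0 (Nat.zero_le _)
  rw [add_zero] at h1 h2
  omega

end Pool.Agent.Y898.Engine2
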