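import Pool.Agent.Y898.PolyGaps

/-!
# The Milliken-Taylor theorem for consecutive gaps at every scale (helper898)
-/

set_option autoImplicit false
set_option maxHeartbeats 4000000

namespace Pool.Agent.Y898.MTC

open Finset Filter
open Pool.Agent.H256R2.SC (ff)
open Pool.Agent.H752R3.MT Pool.Agent.W68.Mil
open Pool.Agent.Y898.PR (Inc)

theorem seg_inj {Z Z' : ℕ → Finset ℕ} {m k : ℕ} (h : seg Z m = seg Z' k) :
    m = k ∧ ∀ i < k, Z i = Z' i := by
  have h1 : m = k := by
    have := congrArg List.length h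
    simpa [seg] using this
  subst h1
  unfold seg at h
  exact ⟨rfl, fun i hi => List.map_inj_left.1 h i (List.mem_range.2 hi)⟩

/-- the infinite Milliken-Taylor theorem for `k`-tuples and `ρ` colours -/
theorem mt_inf (k ρ : ℕ) (χ : (Fin k → Finset ℕ) → Fin ρ) :
    ∃ Y, Blk Y ∧ ∃ col, ∀ Z, Blk Z → Le Z Y → χ (fun l : Fin k => Z l) = col := by
  classical
  have h0 : Blk (fun i => ({i} : Finset ℕ)) :=
    ⟨fun i => singleton_nonempty i, fun i x hx y hy => by
      rw [mem_singleton] at hx hy; omega⟩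
  have hstep : ∀ S : Finset (Fin ρ), ∃ Y, Blk Y ∧
      ((∃ col, ∀ Z, Blk Z → Le Z Y → χ (fun l : Fin k => Z l) = col) ∨
        ∀ Z, Blk Z → Le Z Y → χ (fun l : Fin k => Z l) ∉ S) := by
    intro S
    induction S using Finset.induction_on with
    | empty => exact ⟨_, h0, Or.inr fun Z _ _ => notMem_empty _⟩
    | insert a S _ ih =>
      obtain ⟨Y, hY, h⟩ := ih
      rcases h with h | h
      · exact ⟨Y, hY, Or.inl h⟩
      · obtain ⟨Y', hY', hle, h'⟩ := dichotomy
          {s : List (Finset ℕ) | ∃ Z : ℕ → Finset ℕ, s = seg Z k ∧ χ (fun l : Fin k => Z l) = a} Y hY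
        refine ⟨Y', hY', ?_⟩
        rcases h' with h' | h'
        · right
          intro Z hZ hZY hmem
          rcases mem_insert.1 hmem with ha | hS
          · refine h' (seg Z k) ?_ ?_ ⟨Z, rfl, ha⟩
            · unfold seg
              rw [List.pairwise_map]
              refine (List.pairwise_lt_range (n := k)).imp ?_
              intro a b hab
              exact hZ.lt hab
            · intro A hA
              unfold seg at hA
              obtain ⟨i, -, rfl⟩ := List.mem_map.1 hA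
              exact hZY i
          · exact h Z hZ (hZY.trans hle) hS
        · left
          refine ⟨a, fun Z hZ hZY => ?_⟩
          obtain ⟨m, Z', hs, hχ⟩ := h' Z hZ hZY
          obtain ⟨-, h2⟩ := seg_inj hs
          have h3 : (fun l : Fin k => Z l) = fun l : Fin k => Z' l := funext fun l => h2 l l.2
          rw [h3]
          exact hχ
  obtain ⟨Y, hY, h⟩ := hstep univ
  rcases h with h | h
  · exact ⟨Y, hY, h⟩
  · exact absurd (mem_univ _) (h Y hY (Le.refl Y))

/-- the finite form -/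
theorem mt_col (k m ρ : ℕ) : ∃ r : ℕ, ∀ χ : (Fin k → Finset ℕ) → Fin ρ,
    ∃ β : Fin m → Finset ℕ, Inc r β ∧ ∃ col, ∀ I : Fin k → Finset (Fin m),
      (∀ l, (I l).Nonempty) → (∀ l l', l < l' → ∀ i ∈ I l, ∀ j ∈ I l', i < j) →
      χ (fun l => (I l).biUnion β) = col := by
  classical
  by_contra hcon
  push Not at hcon
  choose χ hbad using hcon
  set U : Ultrafilter ℕ := hyperfilter ℕ with hU
  have hlim : ∀ t : Fin k → Finset ℕ, ∃ col, ∀ᶠ r in (U : Filter ℕ), χ r t = col := by
    intro t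
    by_contra hno
    have h2 : ∀ col, ∀ᶠ r in (U : Filter ℕ), χ r t ≠ col := fun col =>
      Ultrafilter.eventually_not.2 (fun h => hno ⟨col, h⟩)
    obtain ⟨r, hr⟩ := (eventually_all.2 h2).exists
    exact hr _ rfl
  choose χ' hχ' using hlim
  obtain ⟨Y, hY, col, hcol⟩ := mt_inf k ρ χ'
  have hY2 : ∀ I : Fin k → Finset (Fin m), (∀ l, (I l).Nonempty) →
      (∀ l l', l < l' → ∀ i ∈ I l, ∀ j ∈ I l', i < j) →
      χ' (fun l => (I l).biUnion (fun i : Fin m => Y i)) = col := by
    intro I hI hII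
    obtain ⟨F, hF⟩ : ∃ F : ℕ → Finset ℕ, F = fun i =>
      if h : i < k then (I ⟨i, h⟩).image Fin.val else {m + i} := ⟨_, rfl⟩
    have hFn : ∀ i, (F i).Nonempty := by
      intro i
      rw [hF]
      simp only
      split_ifs with h
      · exact (hI _).image _
      · exact singleton_nonempty _
    have hFB : Blk F := by
      refine ⟨hFn, fun i x hx y hy => ?_⟩
      rw [hF] at hx hy
      simp only at hx hy
      by_cases h1 : i < k
      · rw [dif_pos h1] at hx
        obtain ⟨x', hx', rfl⟩ := mem_image.1 hx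
        by_cases h2 : i + 1 < k
        · rw [dif_pos h2] at hy
          obtain ⟨y', hy', rfl⟩ := mem_image.1 hy
          exact Fin.lt_def.1 (hII ⟨i, h1⟩ ⟨i + 1, h2⟩ (by simp [Fin.lt_def]) x' hx' y' hy')
        · rw [dif_neg h2, mem_singleton] at hy
          have h3 := x'.2
          omega
      · rw [dif_neg h1, mem_singleton] at hx
        rw [dif_neg (by omega), mem_singleton] at hy
        omega
    have h2 := hcol (fun i => (F i).biUnion Y) (hFB.comp hY) (fun i => ⟨F i, hFn i, rfl⟩)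
    have h1 : (fun l : Fin k => (F l).biUnion Y) =
        fun l => (I l).biUnion (fun i : Fin m => Y i) := by
      funext l
      rw [hF]
      simp only [l.2, dif_pos]
      rw [image_biUnion]
    rw [h1] at h2
    exact h2
  have hfin : (Set.univ : Set (Fin k → Finset (Fin m))).Finite := Set.finite_univ
  have h4 : ∀ᶠ r in (U : Filter ℕ), ∀ I : Fin k → Finset (Fin m),
      χ r (fun l => (I l).biUnion (fun i : Fin m => Y i)) =
        χ' (fun l => (I l).biUnion (fun i : Fin m => Y i)) :=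
    eventually_all.2 fun I => hχ' _
  have h5 : ∀ᶠ r in (U : Filter ℕ), ∀ i : Fin m, Y i ⊆ range r := by
    have h6 : ∀ᶠ r in (atTop : Filter ℕ), ∀ i : Fin m, Y i ⊆ range r := by
      filter_upwards [eventually_ge_atTop ((univ : Finset (Fin m)).sup (fun i => (Y i).sup id) + 1)]
        with r hr i x hx
      rw [mem_range]
      have h7 : x ≤ (Y i).sup id := le_sup (f := id) hx
      have h8 : (Y i).sup id ≤ (univ : Finset (Fin m)).sup (fun i => (Y i).sup id) :=
        le_sup (f := fun i : Fin m => (Y i).sup id) (mem_univ i)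
      omega
    exact h6.filter_mono (Nat.hyperfilter_le_atTop)
  obtain ⟨r, h7, h8⟩ := (h4.and h5).exists
  obtain ⟨I, hI, hII, hne⟩ := hbad r (fun i : Fin m => Y i)
    ⟨fun l => ⟨hY.1 l, h8 l⟩, fun l l' hll => hY.lt (Fin.lt_def.1 hll)⟩ col
  exact hne ((h7 I).trans (hY2 I hI hII))

theorem mt_gaps (k m ρ : ℕ) : ∃ c C : ℝ, 0 < c ∧ 0 < C ∧ ∀ᶠ x : ℝ in atTop,
    ∀ H : ℝ, 1 ≤ H → H ≤ c * ff x → ∀ χ : (Fin k → ℤ) → Fin ρ,
    x ^ (7 / 8 : ℝ) ≤ (Set.ncard (Pool.Agent.Y898.PolyGaps.Cl c C x H m (fun v =>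
      ∃ col, ∀ I : Fin k → Finset (Fin m), (∀ l, (I l).Nonempty) →
        (∀ l l', l < l' → ∀ i ∈ I l, ∀ j ∈ I l', i < j) →
        χ (fun l => ∑ i ∈ I l, v i) = col)) : ℝ) := by
  classical
  obtain ⟨r, hr⟩ := mt_col k m ρ
  obtain ⟨c, C, hc, hC, hx⟩ := Pool.Agent.Y898.PolyGaps.gaps_of_blocks' m r
  refine ⟨c, C, hc, hC, ?_⟩
  filter_upwards [hx] with x hxx H hH hHc χ
  refine hxx H hH hHc _ ?_
  intro B hB y hy
  obtain ⟨β, hβ, col, hcol⟩ := hr (fun α => χ (fun l => ∑ n ∈ α l, ((B * y n : ℕ) : ℤ)))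
  refine ⟨β, hβ, col, fun I hI hII => ?_⟩
  rw [← hcol I hI hII]
  congr 1
  funext l
  rw [sum_biUnion]
  intro i _ j _ hij
  rw [Function.onFun, Finset.disjoint_left]
  intro z hz hz'
  rcases lt_or_gt_of_ne hij with hlt | hlt
  · exact absurd (hβ.2 i j hlt z hz z hz') (lt_irrefl _)
  · exact absurd (hβ.2 j i hlt z hz' z hz) (lt_irrefl _)

end Pool.Agent.Y898.MTC
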