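import Pool.Agent.W68.Mil2

/-!
# A finite Milliken-Taylor theorem for properties of tuples of blocks (helper898)

If every sequence of `r` blocks has an increasing tuple of unions with the property `G`, then some
sequence of `K` blocks inside `{0, …, R - 1}` has only such tuples; `R` does not depend on `G`.
By compactness from the infinite theorem `Pool.Agent.W68.Mil.closed_family`.
-/

set_option autoImplicit false

namespace Pool.Agent.Y898.MTF

open Finset Filter
open Pool.Agent.H752R3.MT Pool.Agent.W68.Mil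

/-- increasing tuples of nonempty subsets of `{0, …, r - 1}` -/
def Inc {k : ℕ} (r : ℕ) (I : Fin k → Finset ℕ) : Prop :=
  (∀ l, (I l).Nonempty ∧ I l ⊆ range r) ∧ ∀ l l', l < l' → ∀ x ∈ I l, ∀ y ∈ I l', x < y

theorem inc_finite (k r : ℕ) : {I : Fin k → Finset ℕ | Inc r I}.Finite := by
  classical
  refine (Set.Finite.pi' (fun _ : Fin k => (range r).powerset.finite_toSet)).subset ?_
  intro I hI l
  exact mem_coe.2 (mem_powerset.2 (hI.1 l).2)

theorem union_nonempty {X : ℕ → Finset ℕ} (hX : Blk X) {I : Finset ℕ} (hI : I.Nonempty) :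
    (I.biUnion X).Nonempty := by
  obtain ⟨i, hi⟩ := hI
  obtain ⟨x, hx⟩ := hX.1 i
  exact ⟨x, mem_biUnion.2 ⟨i, hi, hx⟩⟩

theorem mt_fin (k K r : ℕ) : ∃ R : ℕ, ∀ G : (Fin k → Finset ℕ) → Prop,
    (∀ X : ℕ → Finset ℕ, Blk X → ∃ I : Fin k → Finset ℕ, Inc r I ∧ G (fun l => (I l).biUnion X)) →
    ∃ W : ℕ → Finset ℕ, Blk W ∧ (∀ i < K, W i ⊆ range R) ∧
      ∀ I : Fin k → Finset ℕ, Inc K I → G (fun l => (I l).biUnion W) := by
  classical
  by_contra hcon
  push Not at hcon
  choose G hG hbad using hcon
  set U : Ultrafilter ℕ := hyperfilter ℕ with hU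
  -- the limit property
  set g : (Fin k → Finset ℕ) → Prop := fun t => ∀ᶠ R in (U : Filter ℕ), G R t with hg
  have hlim : ∀ X : ℕ → Finset ℕ, Blk X → ∃ I : Fin k → Finset ℕ, Inc r I ∧
      g (fun l => (I l).biUnion X) := by
    intro X hX
    have h1 : ∀ R, ∃ I : Fin k → Finset ℕ, Inc r I ∧ G R (fun l => (I l).biUnion X) :=
      fun R => hG R X hX
    by_contra hno
    push Not at hno
    have h2 : ∀ I ∈ {I : Fin k → Finset ℕ | Inc r I}, ∀ᶠ R in (U : Filter ℕ),
        ¬ G R (fun l => (I l).biUnion X) := by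
      intro I hI
      exact Ultrafilter.eventually_not.2 (hno I hI)
    have h3 := (inc_finite k r).eventually_all.2 h2
    obtain ⟨R, hR⟩ := h3.exists
    obtain ⟨I, hI, hGI⟩ := h1 R
    exact hR I hI hGI
  -- the infinite theorem
  obtain ⟨Y, hY, -, hall⟩ := closed_family (fun Z => g (fun l : Fin k => Z l))
    (by
      intro Z hZ hng
      refine ⟨k, fun Z' hZ' he => ?_⟩
      have h1 : (fun l : Fin k => Z' l) = fun l : Fin k => Z l := funext fun l => he l l.2
      rw [h1]
      exact hng)
    (by
      intro X hX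
      obtain ⟨I, hI, hgI⟩ := hlim X hX
      -- a block sequence that starts with the tuple
      obtain ⟨F, hF⟩ : ∃ F : ℕ → Finset ℕ, F = fun i => if h : i < k then I ⟨i, h⟩ else {r + i} :=
        ⟨_, rfl⟩
      have hFn : ∀ i, (F i).Nonempty := by
        intro i
        rw [hF]
        simp only
        split_ifs with h
        · exact (hI.1 _).1
        · exact singleton_nonempty _
      have hFB : Blk F := by
        refine ⟨hFn, fun i x hx y hy => ?_⟩
        rw [hF] at hx hy
        simp only at hx hy
        by_cases h1 : i < k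
        · rw [dif_pos h1] at hx
          by_cases h2 : i + 1 < k
          · rw [dif_pos h2] at hy
            exact hI.2 ⟨i, h1⟩ ⟨i + 1, h2⟩ (by simp [Fin.lt_def]) x hx y hy
          · rw [dif_neg h2, mem_singleton] at hy
            have h3 := mem_range.1 ((hI.1 ⟨i, h1⟩).2 hx)
            omega
        · rw [dif_neg h1, mem_singleton] at hx
          rw [dif_neg (by omega), mem_singleton] at hy
          omega
      refine ⟨fun i => (F i).biUnion X, hFB.comp hX, fun i => ⟨F i, hFn i, rfl⟩, ?_⟩
      have h1 : (fun l : Fin k => (F l).biUnion X) = fun l => (I l).biUnion X := by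
        funext l
        rw [hF]
        simp only [l.2, dif_pos]
      rw [h1]
      exact hgI) (fun i => {i})
    ⟨fun i => singleton_nonempty i, fun i x hx y hy => by
      rw [mem_singleton] at hx hy; omega⟩
  have hY2 : ∀ I : Fin k → Finset ℕ, Inc K I → g (fun l => (I l).biUnion Y) := by
    intro I hI
    obtain ⟨F, hF⟩ : ∃ F : ℕ → Finset ℕ, F = fun i => if h : i < k then I ⟨i, h⟩ else {K + i} :=
      ⟨_, rfl⟩
    have hFn : ∀ i, (F i).Nonempty := by
      intro i
      rw [hF]
      simp only
      split_ifs with h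
      · exact (hI.1 _).1
      · exact singleton_nonempty _
    have hFB : Blk F := by
      refine ⟨hFn, fun i x hx y hy => ?_⟩
      rw [hF] at hx hy
      simp only at hx hy
      by_cases h1 : i < k
      · rw [dif_pos h1] at hx
        by_cases h2 : i + 1 < k
        · rw [dif_pos h2] at hy
          exact hI.2 ⟨i, h1⟩ ⟨i + 1, h2⟩ (by simp [Fin.lt_def]) x hx y hy
        · rw [dif_neg h2, mem_singleton] at hy
          have h3 := mem_range.1 ((hI.1 ⟨i, h1⟩).2 hx)
          omega
      · rw [dif_neg h1, mem_singleton] at hx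
        rw [dif_neg (by omega), mem_singleton] at hy
        omega
    have h2 := hall (fun i => (F i).biUnion Y) (hFB.comp hY) (fun i => ⟨F i, hFn i, rfl⟩)
    have h1 : (fun l : Fin k => (F l).biUnion Y) = fun l => (I l).biUnion Y := by
      funext l
      rw [hF]
      simp only [l.2, dif_pos]
    simp only [h1] at h2
    exact h2
  have h4 : ∀ᶠ R in (U : Filter ℕ), ∀ I ∈ {I : Fin k → Finset ℕ | Inc K I},
      G R (fun l => (I l).biUnion Y) :=
    (inc_finite k K).eventually_all.2 fun I hI => hY2 I hI
  have h5 : ∀ᶠ R in (U : Filter ℕ), ∀ i < K, Y i ⊆ range R := by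
    have h6 : ∀ᶠ R in (atTop : Filter ℕ), ∀ i < K, Y i ⊆ range R := by
      filter_upwards [eventually_ge_atTop ((range K).sup (fun i => (Y i).sup id) + 1)] with R hR i hi x hx
      rw [mem_range]
      have h7 : x ≤ (Y i).sup id := le_sup (f := id) hx
      have h8 : (Y i).sup id ≤ (range K).sup (fun i => (Y i).sup id) :=
        le_sup (f := fun i => (Y i).sup id) (mem_range.2 hi)
      omega
    exact h6.filter_mono (Nat.hyperfilter_le_atTop)
  obtain ⟨R, h7, h8⟩ := (h4.and h5).exists
  obtain ⟨I, hI, hno⟩ := hbad R Y hY h8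
  exact hno (h7 I hI)

end Pool.Agent.Y898.MTF
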