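import Pool.Agent.Y898.MTF
import Pool.Agent.Y898.Den
import Pool.Agent.Y898.Engine2

/-!
# Consecutive gaps at every scale as polynomial return times (helper898)
-/

set_option autoImplicit false
set_option maxHeartbeats 4000000

namespace Pool.Agent.Y898.PolyGaps

open Finset Filter
open Pool.Agent.H256R2.SC (ff)
open Pool.Agent.H752R3.MT (Blk)
open Pool.Agent.Y898.PR

theorem card_union {X : ℕ → Finset ℕ} (hX : Blk X) (I : Finset ℕ) :
    (I.biUnion X).card = ∑ i ∈ I, (X i).card := by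
  classical
  refine card_biUnion fun i _ j _ hij => ?_
  rw [Function.onFun, Finset.disjoint_left]
  intro x hx hx'
  rcases Nat.lt_or_gt_of_ne hij with h | h
  · exact absurd (hX.lt h x hx x hx') (lt_irrefl _)
  · exact absurd (hX.lt h x hx' x hx) (lt_irrefl _)

/-- the set of the clusters of `k + 1` primes up to `x` with gaps between `H` and `C H`, after a gap
of size at least `c f(x)`, and with the property `Q` of the vector of the gaps -/
def Cl (c C x H : ℝ) (k : ℕ) (Q : (Fin k → ℤ) → Prop) : Set ℕ :=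
  {n : ℕ | 0 < n ∧ (Nat.nth Nat.Prime (n + k) : ℝ) ≤ x ∧
    c * ff x ≤ (Nat.nth Nat.Prime n : ℝ) - Nat.nth Nat.Prime (n - 1) ∧
    (∀ i < k, H ≤ (Nat.nth Nat.Prime (n + i + 1) : ℝ) - Nat.nth Nat.Prime (n + i) ∧
      (Nat.nth Nat.Prime (n + i + 1) : ℝ) - Nat.nth Nat.Prime (n + i) ≤ C * H) ∧
    Q (fun l => (Nat.nth Nat.Prime (n + l + 1) : ℤ) - Nat.nth Nat.Prime (n + l))}

theorem cl_finite (c C x H : ℝ) (k : ℕ) (Q : (Fin k → ℤ) → Prop) : (Cl c C x H k Q).Finite := by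
  refine (Set.finite_Iic ⌊x⌋₊).subset ?_
  rintro n ⟨-, h1, -⟩
  refine Nat.le_floor (le_trans ?_ h1)
  have h2 : n + k ≤ Nat.nth Nat.Prime (n + k) :=
    (Nat.nth_strictMono Nat.infinite_setOfPred_prime).le_apply
  exact_mod_cast (Nat.le_add_right n k).trans h2

/-- the clusters in which all increasing unions of gaps have a property, if the property occurs in
every long sequence of blocks; here the unions are taken of `m` gaps -/
theorem gaps_of_blocks (k m r : ℕ) : ∃ c C : ℝ, 0 < c ∧ 0 < C ∧ ∀ᶠ x : ℝ in atTop,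
    ∀ H : ℝ, 1 ≤ H → H ≤ c * ff x → ∀ Q : (Fin k → ℤ) → Prop,
    (∀ B : ℕ, 0 < B → ∀ y : ℕ → ℕ, (∀ n, 0 < y n) → ∃ α : Fin k → Finset ℕ, Inc r α ∧
      Q (fun l => ∑ n ∈ α l, ((B * y n : ℕ) : ℤ))) →
    x ^ (7 / 8 : ℝ) ≤ (Set.ncard (Cl c C x H m (fun v => ∀ F : Fin k → Finset (Fin m),
      (∀ l, (F l).Nonempty) → (∀ l l', l < l' → ∀ i ∈ F l, ∀ j ∈ F l', i < j) →
      Q (fun l => ∑ i ∈ F l, v i))) : ℝ) := by
  classical
  obtain ⟨K, hK⟩ := Pool.Agent.Y898.Engine2.engine2 m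
  obtain ⟨R, hR⟩ := Pool.Agent.Y898.MTF.mt_fin k K r
  obtain ⟨c, hc, hx⟩ := hK R
  refine ⟨c / 2, 2 * K.factorial * (K * R + 1), by positivity, by positivity, ?_⟩
  filter_upwards [hx] with x hxx H hH hHc Q hQ
  have hff : 0 ≤ ff x := by
    by_contra hneg
    push Not at hneg
    nlinarith
  obtain ⟨h, hh⟩ : ∃ h : ℕ, h = ⌈H⌉₊ := ⟨_, rfl⟩
  have hh1 : 1 ≤ h := by
    rw [hh]
    exact Nat.one_le_iff_ne_zero.2 (Nat.pos_iff_ne_zero.1 (Nat.ceil_pos.2 (by linarith)))
  have hhH : H ≤ h := by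
    rw [hh]
    exact Nat.le_ceil H
  have hh2 : (h : ℝ) ≤ 2 * H := by
    have h1 := Nat.ceil_lt_add_one (a := H) (by linarith)
    rw [← hh] at h1
    linarith
  have hhc : (h : ℝ) ≤ c * ff x := by linarith
  have hB : 0 < K.factorial * h := Nat.mul_pos (Nat.factorial_pos K) hh1
  obtain ⟨W, hW, hWR, hWQ⟩ := hR (fun α => Q (fun l => ((K.factorial * h * (α l).card : ℕ) : ℤ))) (by
    intro X hX
    obtain ⟨α, hα, hq⟩ := hQ (K.factorial * h) hB (fun n => (X n).card)
      (fun n => card_pos.2 (hX.1 n))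
    refine ⟨α, hα, ?_⟩
    have h1 : (fun l => ((K.factorial * h * ((α l).biUnion X).card : ℕ) : ℤ)) =
        fun l => ∑ n ∈ α l, ((K.factorial * h * (X n).card : ℕ) : ℤ) := by
      funext l
      rw [card_union hX, mul_sum]
      push_cast
      rfl
    simp only [h1]
    exact hq)
  have hwR : ∀ i < K, 0 < (W i).card ∧ (W i).card ≤ R := by
    intro i hi
    refine ⟨card_pos.2 (hW.1 i), ?_⟩
    have h1 := card_le_card (hWR i hi)
    rwa [card_range] at h1
  refine (hxx h hh1 hhc (fun i => (W i).card) hwR).trans ?_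
  rw [Nat.cast_le, ← Set.ncard_coe_finset]
  refine Set.ncard_le_ncard ?_ (cl_finite _ _ _ _ _ _)
  intro n hn
  rw [mem_coe, mem_filter] at hn
  obtain ⟨-, hn0, h1, h2, a, ha, hak, hgap⟩ := hn
  have hmono : ∀ i j, i ≤ j → j ≤ m → a i ≤ a j := by
    intro i j hij
    induction j, hij using Nat.le_induction with
    | base => exact fun _ => le_rfl
    | succ t ht ih =>
      intro hmk
      exact (ih (by omega)).trans (ha t (by omega)).le
  have hgapr : ∀ i < m, (Nat.nth Nat.Prime (n + i + 1) : ℝ) - Nat.nth Nat.Prime (n + i) =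
      ((K.factorial * h * ∑ j ∈ Ico (a i) (a (i + 1)), (W j).card : ℕ) : ℝ) := by
    intro i hi
    rw [← hgap i hi, Nat.cast_sub (Nat.nth_monotone Nat.infinite_setOfPred_prime (Nat.le_succ _))]
  refine ⟨hn0, h1, ?_, fun i hi => ?_, fun F hF hFF => ?_⟩
  · refine le_trans ?_ h2
    exact mul_le_mul_of_nonneg_right (by linarith) hff
  · rw [hgapr i hi]
    have hK1 : (1 : ℝ) ≤ K.factorial := by exact_mod_cast Nat.factorial_pos K
    have hlow : 1 ≤ ∑ j ∈ Ico (a i) (a (i + 1)), (W j).card := by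
      have h3 : ∑ j ∈ Ico (a i) (a (i + 1)), 1 ≤ ∑ j ∈ Ico (a i) (a (i + 1)), (W j).card :=
        sum_le_sum fun j _ => card_pos.2 (hW.1 j)
      rw [sum_const, Nat.card_Ico, smul_eq_mul, mul_one] at h3
      have := ha i hi
      omega
    have hhigh : ∑ j ∈ Ico (a i) (a (i + 1)), (W j).card ≤ K * R := by
      have h3 : ∑ j ∈ Ico (a i) (a (i + 1)), (W j).card ≤ ∑ j ∈ Ico (a i) (a (i + 1)), R :=
        sum_le_sum fun j hj => (hwR j (by
          have h4 := (mem_Ico.1 hj).2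
          have h5 := hmono (i + 1) m hi le_rfl
          omega)).2
      refine h3.trans ?_
      rw [sum_const, Nat.card_Ico, smul_eq_mul]
      have h5 := hmono (i + 1) m hi le_rfl
      exact Nat.mul_le_mul_right _ (by omega)
    constructor
    · push_cast
      have h3 : (1 : ℝ) ≤ ∑ j ∈ Ico (a i) (a (i + 1)), ((W j).card : ℝ) := by exact_mod_cast hlow
      calc H ≤ (1 : ℝ) * h * 1 := by linarith
        _ ≤ (K.factorial : ℝ) * h * ∑ j ∈ Ico (a i) (a (i + 1)), ((W j).card : ℝ) := by gcongr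
    · push_cast
      have h3 : ∑ j ∈ Ico (a i) (a (i + 1)), ((W j).card : ℝ) ≤ K * R := by exact_mod_cast hhigh
      calc (K.factorial : ℝ) * h * ∑ j ∈ Ico (a i) (a (i + 1)), ((W j).card : ℝ)
          ≤ (K.factorial : ℝ) * (2 * H) * (K * R + 1) := by
            gcongr
            linarith
        _ = 2 * K.factorial * (K * R + 1) * H := by ring
  · have h3 := hWQ (fun l : Fin k => (F l).biUnion (fun i : Fin m => Ico (a i) (a (i + 1))))
      ⟨fun l => ⟨?_, ?_⟩, ?_⟩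
    · have h4 : (fun l : Fin k => ((K.factorial * h * (((F l).biUnion
            (fun i : Fin m => Ico (a i) (a (i + 1)))).biUnion W).card : ℕ) : ℤ)) =
          fun l : Fin k => ∑ i ∈ F l, ((Nat.nth Nat.Prime (n + i + 1) : ℤ) -
            Nat.nth Nat.Prime (n + i)) := by
        funext l
        rw [card_union hW, sum_biUnion, mul_sum]
        · push_cast
          refine sum_congr rfl fun i _ => ?_
          rw [← Nat.cast_sub (Nat.nth_monotone Nat.infinite_setOfPred_prime (Nat.le_succ _)),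
            hgap i i.2]
          push_cast
          rfl
        · intro i _ j _ hij
          rw [Function.onFun, Finset.disjoint_left]
          intro z hz hz'
          have h5 := mem_Ico.1 hz
          have h6 := mem_Ico.1 hz'
          rcases lt_or_gt_of_ne hij with hlt | hlt
          · have h7 := hmono (i + 1) j (by
              have := Fin.lt_def.1 hlt
              omega) j.2.le
            omega
          · have h7 := hmono (j + 1) i (by
              have := Fin.lt_def.1 hlt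
              omega) i.2.le
            omega
      simp only [h4] at h3
      exact h3
    · obtain ⟨i, hi⟩ := hF l
      have h4 := ha i i.2
      exact ⟨a i, mem_biUnion.2 ⟨i, hi, mem_Ico.2 ⟨le_rfl, h4⟩⟩⟩
    · intro z hz
      obtain ⟨i, hi, hz⟩ := mem_biUnion.1 hz
      have h5 := (mem_Ico.1 hz).2
      have h6 := hmono (i + 1) m i.2 le_rfl
      exact mem_range.2 (by omega)
    · intro l l' hll z hz z' hz'
      obtain ⟨i, hi, hz⟩ := mem_biUnion.1 hz
      obtain ⟨j, hj, hz'⟩ := mem_biUnion.1 hz'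
      have h5 := (mem_Ico.1 hz).2
      have h6 := (mem_Ico.1 hz').1
      have hij := hFF l l' hll i hi j hj
      have h7 := hmono (i + 1) j (by
        have := Fin.lt_def.1 hij
        omega) j.2.le
      omega

/-- the special case of the gaps themselves -/
theorem gaps_of_blocks' (k r : ℕ) : ∃ c C : ℝ, 0 < c ∧ 0 < C ∧ ∀ᶠ x : ℝ in atTop,
    ∀ H : ℝ, 1 ≤ H → H ≤ c * ff x → ∀ Q : (Fin k → ℤ) → Prop,
    (∀ B : ℕ, 0 < B → ∀ y : ℕ → ℕ, (∀ n, 0 < y n) → ∃ α : Fin k → Finset ℕ, Inc r α ∧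
      Q (fun l => ∑ n ∈ α l, ((B * y n : ℕ) : ℤ))) →
    x ^ (7 / 8 : ℝ) ≤ (Set.ncard (Cl c C x H k Q) : ℝ) := by
  obtain ⟨c, C, hc, hC, h⟩ := gaps_of_blocks k k r
  refine ⟨c, C, hc, hC, ?_⟩
  filter_upwards [h] with x hx H hH hHc Q hQ
  refine (hx H hH hHc Q hQ).trans ?_
  rw [Nat.cast_le]
  refine Set.ncard_le_ncard ?_ (cl_finite _ _ _ _ _ _)
  rintro n ⟨h1, h2, h3, h4, h5⟩
  refine ⟨h1, h2, h3, h4, ?_⟩
  have h6 := h5 (fun l => {l}) (fun l => singleton_nonempty l) (by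
    intro l l' hll i hi j hj
    rw [mem_singleton] at hi hj
    rw [hi, hj]
    exact hll)
  simp only [sum_singleton] at h6
  exact h6

theorem poly_gaps (k K N D s : ℕ) (ε : ℝ) (hε : 0 < ε) : ∃ η : ℝ, 0 < η ∧
    ∃ c C : ℝ, 0 < c ∧ 0 < C ∧ ∀ᶠ x : ℝ in atTop, ∀ H : ℝ, 1 ≤ H → H ≤ c * ff x →
    ∀ (e : ℕ) (cf : Fin N → (Fin k → Fin (D + 1)) → (Fin e → ℝ)), (∀ j, cf j 0 = 0) →
    ∀ S : Finset (Fin e), S.card ≤ s →
    (∀ i, i ∉ S → ∀ j, ∀ v : Fin k → ℤ, ∃ u : ℤ, ev (cf j) (fun l => (v l : ℝ)) i = u) →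
    ∀ (Ψ : (Fin e → ℤ) → Fin K),
    x ^ (7 / 8 : ℝ) ≤ (Set.ncard (Cl c C x H k (fun v =>
      (∀ j i, |ev (cf j) (fun l => ((v l : ℤ) : ℝ)) i -
        round (ev (cf j) (fun l => ((v l : ℤ) : ℝ)) i)| < ε) ∧
      Pool.Agent.TH709.RGap.Dense {a : Fin e → ℤ | ∀ j, Ψ (fun i => a i +
        round (ev (cf j) (fun l => ((v l : ℤ) : ℝ)) i)) = Ψ a} η)) : ℝ) := by
  classical
  obtain ⟨r, η, hη, hret⟩ := Pool.Agent.Y898.Den.returns k K N D s ε hε
  obtain ⟨c, C, hc, hC, hx⟩ := gaps_of_blocks' k r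
  refine ⟨η, hη, c, C, hc, hC, ?_⟩
  filter_upwards [hx] with x hxx H hH hHc e cf hcf S hS hint Ψ
  refine hxx H hH hHc _ ?_
  intro B hB y hy
  obtain ⟨α, hα, h1, h2⟩ := hret e cf hcf S hS hint Ψ (fun n => ((B * y n : ℕ) : ℤ))
  exact ⟨α, hα, h1, h2⟩

end Pool.Agent.Y898.PolyGaps
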