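import Pool.Agent.Y898.PolyGaps

/-!
# Configurations in dense sets with several parameters from consecutive record gaps (helper898)
-/

set_option autoImplicit false
set_option maxHeartbeats 4000000

namespace Pool.Agent.Y898.SzMulti

open Finset Filter
open Pool.Agent.H256R2.SC (ff)
open Pool.Agent.Y898.PR (Inc)
open Pool.Agent.TH709.RGap (box mem_box)

theorem dense_mono {e : ℕ} {A B : Set (Fin e → ℤ)} {δ : ℝ} (h : Pool.Agent.TH709.RGap.Dense A δ)
    (hAB : A ⊆ B) : Pool.Agent.TH709.RGap.Dense B δ := by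
  intro L
  obtain ⟨N, hN, x, hx⟩ := h L
  refine ⟨N, hN, x, hx.trans ?_⟩
  rw [Nat.cast_le]
  refine Set.ncard_le_ncard (fun z hz => ⟨hAB hz.1, hz.2⟩) ?_
  refine (finite_toSet (box x N)).subset ?_
  rintro z ⟨-, hz⟩
  rw [mem_coe, mem_box]
  exact hz

theorem sz_multi (q k : ℕ) : ∀ δ : ℝ, 0 < δ → ∃ (r : ℕ) (η : ℝ), 0 < η ∧
    ∀ (e : ℕ) (A : Set (Fin e → ℤ)), Pool.Agent.TH709.RGap.Dense A δ →
    ∀ (F : Fin (q + 1) → Fin k → Fin e → ℤ) (y : ℕ → ℤ), ∃ α : Fin k → Finset ℕ, Inc r α ∧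
      Pool.Agent.TH709.RGap.Dense
        {a : Fin e → ℤ | ∀ t, a + ∑ l, (∑ n ∈ α l, y n) • F t l ∈ A} η := by
  classical
  induction k with
  | zero =>
    intro δ hδ
    refine ⟨0, δ, hδ, fun e A hA F y => ⟨fun _ => ∅, ⟨fun l => l.elim0, fun l => l.elim0⟩, ?_⟩⟩
    refine dense_mono hA fun a ha t => ?_
    rw [univ_eq_empty, sum_empty, add_zero]
    exact ha
  | succ k ih =>
    intro δ hδ
    obtain ⟨r₁, η₁, hη₁, h₁⟩ := Pool.Agent.TH709.RGap.ipr q δ hδ
    obtain ⟨r₂, η₂, hη₂, h₂⟩ := ih η₁ hη₁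
    refine ⟨r₁ + r₂, η₂, hη₂, fun e A hA F y => ?_⟩
    obtain ⟨I, hI, hI'⟩ := h₁ e A hA (fun t => F t 0) (fun i => y i)
    obtain ⟨α', hα', hd⟩ := h₂ e _ hI' (fun t l => F t l.succ) (fun n => y (r₁ + n))
    refine ⟨Fin.cons (I.image Fin.val) (fun l => (α' l).image (fun i => r₁ + i)),
      ⟨fun l => ?_, ?_⟩, dense_mono hd fun a ha t => ?_⟩
    · refine Fin.cases ?_ (fun l => ?_) l
      · simp only [Fin.cons_zero]
        refine ⟨hI.image _, fun x hx => ?_⟩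
        obtain ⟨i, hi, rfl⟩ := mem_image.1 hx
        have := i.2
        exact mem_range.2 (by omega)
      · simp only [Fin.cons_succ]
        refine ⟨(hα'.1 l).1.image _, fun x hx => ?_⟩
        obtain ⟨i, hi, rfl⟩ := mem_image.1 hx
        have := mem_range.1 ((hα'.1 l).2 hi)
        exact mem_range.2 (by omega)
    · intro l
      refine Fin.cases ?_ (fun l => ?_) l
      · intro l'
        refine Fin.cases (fun h => absurd h (lt_irrefl _)) (fun l' _ => ?_) l'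
        simp only [Fin.cons_zero, Fin.cons_succ]
        intro x hx z hz
        obtain ⟨i, hi, rfl⟩ := mem_image.1 hz
        obtain ⟨i', hi', rfl⟩ := mem_image.1 hx
        have := i'.2
        omega
      · intro l'
        refine Fin.cases (fun h => absurd h (Fin.not_lt_zero _)) (fun l' hll => ?_) l'
        simp only [Fin.cons_succ]
        intro x hx z hz
        obtain ⟨i, hi, rfl⟩ := mem_image.1 hx
        obtain ⟨i', hi', rfl⟩ := mem_image.1 hz
        have := hα'.2 l l' (Fin.succ_lt_succ_iff.1 hll) i hi i' hi'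
        omega
    · have h3 := ha t t
      rw [Fin.sum_univ_succ]
      simp only [Fin.cons_zero, Fin.cons_succ]
      have h4 : ∑ n ∈ I.image Fin.val, y n = ∑ i ∈ I, y i :=
        sum_image (fun a _ b _ h => Fin.ext h)
      have h5 : ∀ l, ∑ n ∈ (α' l).image (fun i => r₁ + i), y n = ∑ n ∈ α' l, y (r₁ + n) :=
        fun l => sum_image (fun a _ b _ h => by
          have h' : r₁ + a = r₁ + b := h
          omega)
      rw [h4]
      simp only [h5]
      rw [add_comm ((∑ i ∈ I, y i) • F t 0), ← add_assoc]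
      exact h3

theorem sz_gaps (k q : ℕ) (δ : ℝ) (hδ : 0 < δ) : ∃ η : ℝ, 0 < η ∧
    ∃ c C : ℝ, 0 < c ∧ 0 < C ∧ ∀ᶠ x : ℝ in atTop, ∀ H : ℝ, 1 ≤ H → H ≤ c * ff x →
    ∀ (e : ℕ) (A : Set (Fin e → ℤ)), Pool.Agent.TH709.RGap.Dense A δ →
    ∀ (F : Fin (q + 1) → Fin k → Fin e → ℤ),
    x ^ (7 / 8 : ℝ) ≤ (Set.ncard (Pool.Agent.Y898.PolyGaps.Cl c C x H k (fun v =>
      Pool.Agent.TH709.RGap.Dense {a : Fin e → ℤ | ∀ t, a + ∑ l, v l • F t l ∈ A} η)) : ℝ) := by
  classical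
  obtain ⟨r, η, hη, hret⟩ := sz_multi q k δ hδ
  obtain ⟨c, C, hc, hC, hx⟩ := Pool.Agent.Y898.PolyGaps.gaps_of_blocks' k r
  refine ⟨η, hη, c, C, hc, hC, ?_⟩
  filter_upwards [hx] with x hxx H hH hHc e A hA F
  refine hxx H hH hHc _ ?_
  intro B hB y hy
  obtain ⟨α, hα, h1⟩ := hret e A hA F (fun n => ((B * y n : ℕ) : ℤ))
  exact ⟨α, hα, h1⟩

end Pool.Agent.Y898.SzMulti
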